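import Pool.Agent.K9h26.HG.Lin

set_option autoImplicit false

/-!
# The system of equations of the transposed circuit
-/

namespace Pool.Agent.K9h26.HG

open Finset Pool.Agent.W946.Sz

variable {F ι : Type*} [Field F] {n : ℕ}

/-- the solution of `x v = ∑ w > v, N w v * x w + b v` -/
noncomputable def solve (N : Fin n → Fin n → F) (b : Fin n → F) (v : Fin n) : F :=
  ∑ w : {w : Fin n // v < w}, N w.1 v * solve N b w.1 + b v
termination_by n - v
decreasing_by
  have h1 := w.2
  have h2 := w.1.2
  simp only [Fin.lt_def] at h1
  omega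

/-- strictly triangular -/
def Tri (N : Fin n → Fin n → F) : Prop := ∀ w v, N w v ≠ 0 → v < w

theorem down_ind {P : Fin n → Prop} (h : ∀ v, (∀ w, v < w → P w) → P v) (v : Fin n) : P v := by
  induction v using WellFoundedGT.induction with
  | _ v ih => exact h v ih

theorem Tri.sum_eq {N : Fin n → Fin n → F} (hN : Tri N) (f : Fin n → F) (v : Fin n) :
    ∑ w : {w : Fin n // v < w}, N w.1 v * f w.1 = ∑ w, N w v * f w := by
  classical
  rw [← Finset.sum_subtype (univ.filter fun w => v < w) (fun w => by simp)
    (fun w => N w v * f w)]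
  refine sum_subset (filter_subset _ _) fun w _ hw => ?_
  have : N w v = 0 := by
    by_contra h
    exact hw (mem_filter.2 ⟨mem_univ _, hN w v h⟩)
  rw [this, zero_mul]

theorem Tri.solve_eq {N : Fin n → Fin n → F} (hN : Tri N) (b : Fin n → F) (v : Fin n) :
    solve N b v = ∑ w, N w v * solve N b w + b v := by
  rw [← hN.sum_eq]
  conv_lhs => rw [solve]

theorem Tri.solve_add {N : Fin n → Fin n → F} (hN : Tri N) (b b' : Fin n → F) (v : Fin n) :
    solve N (b + b') v = solve N b v + solve N b' v := by
  induction v using down_ind with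
  | _ v ih =>
  rw [hN.solve_eq, hN.solve_eq b, hN.solve_eq b']
  have h1 : ∀ w, N w v * solve N (b + b') w = N w v * solve N b w + N w v * solve N b' w := by
    intro w
    by_cases h : N w v = 0
    · rw [h]; ring
    · rw [ih w (hN w v h)]; ring
  simp only [h1, sum_add_distrib, Pi.add_apply]
  ring

theorem Tri.solve_smul {N : Fin n → Fin n → F} (hN : Tri N) (a : F) (b : Fin n → F) (v : Fin n) :
    solve N (a • b) v = a * solve N b v := by
  induction v using down_ind with
  | _ v ih =>
  rw [hN.solve_eq, hN.solve_eq b]
  have h1 : ∀ w, N w v * solve N (a • b) w = a * (N w v * solve N b w) := by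
    intro w
    by_cases h : N w v = 0
    · rw [h]; ring
    · rw [ih w (hN w v h)]; ring
  simp only [h1, Pi.smul_apply, smul_eq_mul, mul_add, mul_sum]

variable [Fintype ι] [DecidableEq ι]

/-- the right hand side for the weights `y` of the outputs -/
noncomputable def rhs (out : ι → Fin n) (y : ι → F) (v : Fin n) : F :=
  ∑ a, if out a = v then y a else 0

/-- the weights of the nodes for the weights `y` of the outputs -/
noncomputable def back (N : Fin n → Fin n → F) (out : ι → Fin n) (y : ι → F) : Fin n → F :=
  solve N (rhs out y)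

variable {N : Fin n → Fin n → F} {out : ι → Fin n}

omit [DecidableEq ι] in
theorem back_eq (hN : Tri N) (y : ι → F) (v : Fin n) :
    back N out y v = ∑ w, N w v * back N out y w + rhs out y v := hN.solve_eq _ _

omit [DecidableEq ι] in
theorem back_add (hN : Tri N) (y z : ι → F) (v : Fin n) :
    back N out (y + z) v = back N out y v + back N out z v := by
  unfold back
  rw [← hN.solve_add]
  congr 1
  funext w
  simp only [rhs, Pi.add_apply, ← sum_add_distrib]
  refine sum_congr rfl fun a _ => ?_
  split_ifs <;> simp

omit [DecidableEq ι] in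
theorem back_smul (hN : Tri N) (c : F) (y : ι → F) (v : Fin n) :
    back N out (c • y) v = c * back N out y v := by
  unfold back
  rw [← hN.solve_smul]
  congr 1
  funext w
  simp only [rhs, Pi.smul_apply, smul_eq_mul, mul_sum]
  refine sum_congr rfl fun a _ => ?_
  split_ifs <;> simp

omit [DecidableEq ι] in
theorem back_zero (hN : Tri N) (v : Fin n) : back N out (0 : ι → F) v = 0 := by
  have h := back_smul (out := out) hN (0 : F) (0 : ι → F) v
  rwa [smul_zero, zero_mul] at h

omit [DecidableEq ι] in
theorem back_sum {κ : Type*} (hN : Tri N) (s : Finset κ) (y : κ → ι → F) (v : Fin n) :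
    back N out (∑ k ∈ s, y k) v = ∑ k ∈ s, back N out (y k) v := by
  classical
  induction s using Finset.induction_on with
  | empty => rw [sum_empty, sum_empty, back_zero hN]
  | insert k s hk ih => rw [sum_insert hk, sum_insert hk, back_add hN, ih]

theorem back_expand (hN : Tri N) (y : ι → F) (v : Fin n) :
    back N out y v = ∑ a, y a * back N out (Pi.single a 1) v := by
  conv_lhs => rw [← Finset.univ_sum_single y]
  rw [back_sum hN]
  refine sum_congr rfl fun a _ => ?_
  rw [← back_smul hN]
  congr 1
  funext b
  by_cases h : b = a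
  · subst h; simp
  · simp [Pi.single_eq_of_ne h]

omit [DecidableEq ι] in
/-- **Transposition**: two ways to compute a linear combination of the outputs -/
theorem transpose {M : Type*} [AddCommGroup M] [Module F M] (hN : Tri N) {q p : Fin n → M}
    (hq : ∀ w, q w = ∑ v, N w v • q v + p w) (y : ι → F) :
    ∑ w, back N out y w • p w = ∑ a, y a • q (out a) := by
  have h1 : ∑ v, back N out y v • q v =
      ∑ w, back N out y w • (∑ v, N w v • q v) + ∑ a, y a • q (out a) := by
    have h2 : ∀ v, back N out y v • q v = ∑ w, (N w v * back N out y w) • q v +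
        rhs out y v • q v := by
      intro v
      conv_lhs => rw [back_eq hN]
      rw [add_smul, sum_smul]
    rw [sum_congr rfl fun v _ => h2 v, sum_add_distrib, sum_comm]
    congr 1
    · refine sum_congr rfl fun w _ => ?_
      rw [smul_sum]
      refine sum_congr rfl fun v _ => ?_
      rw [smul_smul, mul_comm]
    · simp only [rhs, sum_smul]
      rw [sum_comm]
      refine sum_congr rfl fun a _ => ?_
      simp only [ite_smul, zero_smul]
      rw [Finset.sum_ite_eq]
      simp
  have h2 : ∑ w, back N out y w • q w =
      ∑ w, back N out y w • (∑ v, N w v • q v) + ∑ w, back N out y w • p w := by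
    rw [← sum_add_distrib]
    refine sum_congr rfl fun w _ => ?_
    rw [← smul_add, ← hq]
  rw [h2] at h1
  exact add_left_cancel h1

open Classical in
/-- the nodes which can have nonzero weight -/
noncomputable def LV (N : Fin n → Fin n → F) (out : ι → Fin n) : Finset (Fin n) :=
  univ.filter fun v => ∃ y : ι → F, back N out y v ≠ 0

omit [DecidableEq ι] in
theorem mem_LV {v : Fin n} : v ∈ LV N out ↔ ∃ y : ι → F, back N out y v ≠ 0 := by
  classical
  unfold LV
  rw [mem_filter]
  exact ⟨fun h => h.2, fun h => ⟨mem_univ _, h⟩⟩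

omit [DecidableEq ι] in
theorem back_not_LV {v : Fin n} (h : v ∉ LV N out) (y : ι → F) : back N out y v = 0 := by
  by_contra h'
  exact h (mem_LV.2 ⟨y, h'⟩)

/-- the coefficients of the equations -/
noncomputable def bH (N : Fin n → Fin n → F) (out : ι → Fin n) (v : Fin n) : Fin n ⊕ ι → F :=
  Sum.elim (fun w => (if w = v then 1 else 0) - N w v) (fun a => -(if out a = v then 1 else 0))

/-- the unknowns -/
noncomputable def bE (N : Fin n → Fin n → F) (out : ι → Fin n) : Finset (Fin n ⊕ ι) :=
  (LV N out).disjSum univ

omit [DecidableEq ι] in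
theorem card_bE : (bE N out).card = (LV N out).card + Fintype.card ι := by
  unfold bE
  rw [card_disjSum, card_univ]

omit [DecidableEq ι] in
theorem sum_bE (x : Fin n ⊕ ι → F) (v : Fin n) :
    ∑ e ∈ bE N out, bH N out v e * x e =
      ∑ w ∈ LV N out, ((if w = v then 1 else 0) - N w v) * x (Sum.inl w) -
        rhs out (fun a => x (Sum.inr a)) v := by
  unfold bE
  rw [sum_disjSum, sub_eq_add_neg]
  congr 1
  unfold rhs
  rw [← sum_neg_distrib]
  refine sum_congr rfl fun a _ => ?_
  simp only [bH, Sum.elim_inr]
  split_ifs <;> simp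

omit [DecidableEq ι] in
/-- the solutions are given by the weights of the outputs -/
theorem sol_eq (hN : Tri N) {x : Fin n ⊕ ι → F} (hx : Sol (bH N out) (bE N out) (LV N out) x)
    (v : Fin n) : x (Sum.inl v) = back N out (fun a => x (Sum.inr a)) v := by
  induction v using down_ind with
  | _ v ih =>
  by_cases hv : v ∈ LV N out
  · have h1 := hx.2 v hv
    rw [sum_bE] at h1
    have h2 : ∑ w ∈ LV N out, ((if w = v then 1 else 0) - N w v) * x (Sum.inl w) =
        x (Sum.inl v) - ∑ w, N w v * back N out (fun a => x (Sum.inr a)) w := by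
      simp only [sub_mul, sum_sub_distrib, ite_mul, one_mul, zero_mul]
      rw [Finset.sum_ite_eq' (LV N out) v, if_pos hv]
      congr 1
      rw [← Finset.sum_subset (subset_univ (LV N out))]
      · refine sum_congr rfl fun w _ => ?_
        by_cases h : N w v = 0
        · rw [h]; ring
        · rw [ih w (hN w v h)]
      · intro w _ hw
        rw [back_not_LV hw, mul_zero]
    rw [h2] at h1
    rw [back_eq hN]
    linear_combination h1
  · rw [back_not_LV hv]
    refine hx.1 _ fun h => hv ?_
    unfold bE at h
    simpa using h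

omit [DecidableEq ι] in
theorem row_two (hN : Tri N) {v : Fin n} (hv : v ∈ LV N out) :
    2 ≤ (row (bH N out) (bE N out) v).card := by
  classical
  obtain ⟨y, hy⟩ := mem_LV.1 hv
  have h0 : N v v = 0 := by
    by_contra h
    exact lt_irrefl _ (hN v v h)
  have h1 : Sum.inl v ∈ row (bH N out) (bE N out) v := by
    unfold row bE
    rw [mem_filter]
    refine ⟨by simpa using hv, ?_⟩
    simp [bH, h0]
  have h2 : ∃ s ∈ row (bH N out) (bE N out) v, s ≠ Sum.inl v := by
    rw [back_eq hN] at hy
    by_cases h3 : rhs out y v = 0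
    · rw [h3, add_zero] at hy
      obtain ⟨w, _, hw⟩ := exists_ne_zero_of_sum_ne_zero hy
      have h4 : N w v ≠ 0 := left_ne_zero_of_mul hw
      have h5 : back N out y w ≠ 0 := right_ne_zero_of_mul hw
      have h6 : w ≠ v := fun h => h4 (by rw [h, h0])
      refine ⟨Sum.inl w, ?_, fun h => h6 (Sum.inl_injective h)⟩
      unfold row bE
      rw [mem_filter]
      refine ⟨by simpa using mem_LV.2 ⟨y, h5⟩, ?_⟩
      simp only [bH, Sum.elim_inl, if_neg h6, zero_sub]
      exact neg_ne_zero.2 h4
    · unfold rhs at h3
      obtain ⟨a, _, ha⟩ := exists_ne_zero_of_sum_ne_zero h3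
      have h4 : out a = v := by
        by_contra h
        exact ha (if_neg h)
      refine ⟨Sum.inr a, ?_, fun h => by simp at h⟩
      unfold row bE
      rw [mem_filter]
      refine ⟨by simp, ?_⟩
      simp [bH, h4]
  obtain ⟨s, hs, hne⟩ := h2
  have h3 : ({s, Sum.inl v} : Finset (Fin n ⊕ ι)) ⊆ row (bH N out) (bE N out) v := by
    intro t ht
    rw [mem_insert, mem_singleton] at ht
    rcases ht with rfl | rfl
    · exact hs
    · exact h1
  have h4 := card_le_card h3
  rwa [card_pair hne] at h4

open Classical in
/-- the inputs of a node -/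
noncomputable def ins (N : Fin n → Fin n → F) (w : Fin n) : Finset (Fin n) :=
  univ.filter fun v => N w v ≠ 0

theorem eqs_inl (w : Fin n) :
    (eqs (bH N out) (LV N out) (Sum.inl w)).card ≤ 1 + (ins N w).card := by
  classical
  have h1 : eqs (bH N out) (LV N out) (Sum.inl w) ⊆ {w} ∪ ins N w := by
    intro v hv
    unfold eqs at hv
    rw [mem_filter] at hv
    rw [mem_union, mem_singleton]
    by_contra h
    rw [not_or] at h
    apply hv.2
    simp only [bH, Sum.elim_inl]
    rw [if_neg (fun h' => h.1 h'.symm)]
    have : N w v = 0 := by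
      by_contra h'
      exact h.2 (mem_filter.2 ⟨mem_univ _, h'⟩)
    rw [this, sub_zero]
  refine (card_le_card h1).trans ((card_union_le _ _).trans ?_)
  rw [card_singleton]

theorem eqs_inr (a : ι) : (eqs (bH N out) (LV N out) (Sum.inr a)).card ≤ 1 := by
  classical
  refine (card_le_card (t := {out a}) ?_).trans (card_singleton _).le
  intro v hv
  unfold eqs at hv
  rw [mem_filter] at hv
  rw [mem_singleton]
  by_contra h
  apply hv.2
  simp only [bH, Sum.elim_inr]
  rw [if_neg (fun h' => h h'.symm), neg_zero]

theorem sum_row_le :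
    ∑ v ∈ LV N out, (row (bH N out) (bE N out) v).card ≤
      ∑ w ∈ LV N out, (1 + (ins N w).card) + Fintype.card ι := by
  classical
  rw [← count_inc]
  unfold bE
  rw [sum_disjSum]
  refine Nat.add_le_add (sum_le_sum fun w _ => eqs_inl w) ?_
  refine (sum_le_card_nsmul _ _ 1 fun a _ => eqs_inr a).trans ?_
  rw [smul_eq_mul, mul_one, card_univ]

/-- **The backward part of a circuit.** If all nonzero weights of the outputs give many nonzero
weights, then there are many nodes with two inputs. -/
theorem back_bound (hN : Tri N) (h2 : ∀ w, (ins N w).card ≤ 2) {i r : ℕ} {ε : ℝ} (hε : 0 < ε)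
    (hi : 1 ≤ i) (hC : ((LV N out).card : ℝ) ≤ (1 + ε) ^ i)
    (hd : Dist (bH N out) (bE N out) (LV N out) (4 ^ r * (4 * i + 3))) :
    (r : ℝ) * (2 * (Fintype.card ι : ℝ) + ∑ w ∈ LV N out, (1 - ((ins N w).card : ℝ))) ≤
      (1 + r * ε) * (LV N out).card := by
  classical
  have h1 := rounds (H := bH N out) (Δ := 3) hε hi r (bE N out) (LV N out)
    (fun c hc => row_two hN hc) (fun e _ => ?_) hC hd
  · refine le_trans (mul_le_mul_of_nonneg_left ?_ (by positivity)) h1
    unfold exc
    rw [card_bE]
    have h3 : ∑ v ∈ LV N out, ((row (bH N out) (bE N out) v).card : ℝ) ≤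
        ∑ w ∈ LV N out, (1 + ((ins N w).card : ℝ)) + Fintype.card ι := by
      exact_mod_cast sum_row_le (N := N) (out := out)
    rw [sum_add_distrib, sum_const, nsmul_eq_mul, mul_one] at h3
    rw [sum_sub_distrib, sum_const, nsmul_eq_mul, mul_one]
    push_cast
    linarith
  · rcases e with w | a
    · exact (eqs_inl w).trans (by have := h2 w; omega)
    · exact (eqs_inr a).trans (by norm_num)

end Pool.Agent.K9h26.HG
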