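import Pool.Agent.W946.SzGates

set_option autoImplicit false

/-!
# Quadratic algorithms: both distances, and the bound for the number of products
-/

namespace Pool.Agent.K9h26.HG

open Finset Pool.Agent.H88R3.MM Pool.Agent.H522R2 Pool.Agent.W946.Sz Pool.Agent.W946.Kos

variable {F : Type*} [Field F] {m : ℕ} {κ : Type*}

/-- a polarized quadratic algorithm for the product of matrices -/
def Pol (P : Finset κ) (u v : κ → Vars m → F) (c : Fin m → Fin m → κ → F) : Prop :=
  ∀ i j x y, D2 x y (entry F m i j) = ∑ g ∈ P, c i j g * (u g x * v g y + u g y * v g x)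

variable {P : Finset κ} {u v : κ → Vars m → F} {c : Fin m → Fin m → κ → F}

theorem Pol.sum_mem (h : Pol P u v c) (X : Vars m → F)
    [DecidablePred fun g => dotProduct (u g) X ≠ 0 ∨ dotProduct (v g) X ≠ 0] (i j : Fin m) :
    (fun y => ∑ x, X x * D2 x y (entry F m i j)) ∈ Submodule.span F
      ((fun (g : κ) (y : Vars m) => dotProduct (u g) X * v g y + u g y * dotProduct (v g) X) ''
        ((P.filter fun g => dotProduct (u g) X ≠ 0 ∨ dotProduct (v g) X ≠ 0 : Finset κ) :
          Set κ)) := by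
  have h1 : (fun y => ∑ x, X x * D2 x y (entry F m i j)) =
      ∑ g ∈ P, c i j g • (fun y : Vars m =>
        dotProduct (u g) X * v g y + u g y * dotProduct (v g) X) := by
    funext y
    simp only [h i j, mul_sum, Finset.sum_apply, Pi.smul_apply, smul_eq_mul]
    rw [sum_comm]
    refine sum_congr rfl fun g _ => ?_
    simp only [dotProduct, sum_mul, mul_sum, mul_add, ← sum_add_distrib]
    exact sum_congr rfl fun x _ => by ring
  rw [h1]
  refine Submodule.sum_mem _ fun g hg => Submodule.smul_mem _ _ ?_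
  by_cases hg' : dotProduct (u g) X ≠ 0 ∨ dotProduct (v g) X ≠ 0
  · exact Submodule.subset_span ⟨g, by rw [mem_coe, mem_filter]; exact ⟨hg, hg'⟩, rfl⟩
  · push Not at hg'
    obtain ⟨h2, h3⟩ := hg'
    have h4 : (fun y : Vars m =>
        dotProduct (u g) X * v g y + u g y * dotProduct (v g) X) = 0 := by
      funext y
      rw [h2, h3, zero_mul, mul_zero, add_zero]
      rfl
    rw [h4]
    exact Submodule.zero_mem _

/-- a nonzero point is seen by many products -/
theorem Pol.fwd (h : Pol P u v c) {X : Vars m → F} (hX : X ≠ 0)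
    [DecidablePred fun g => dotProduct (u g) X ≠ 0 ∨ dotProduct (v g) X ≠ 0] :
    m ≤ (P.filter fun g => dotProduct (u g) X ≠ 0 ∨ dotProduct (v g) X ≠ 0).card := by
  classical
  obtain ⟨z, hz⟩ := Function.ne_iff.1 hX
  rw [Pi.zero_apply] at hz
  set A := P.filter fun g => dotProduct (u g) X ≠ 0 ∨ dotProduct (v g) X ≠ 0 with hA
  set G : Finset (Vars m → F) := A.image (fun (g : κ) (y : Vars m) =>
        dotProduct (u g) X * v g y + u g y * dotProduct (v g) X) with hG
  have hmem : ∀ i j, (fun y => ∑ x, X x * D2 x y (entry F m i j)) ∈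
      Submodule.span F (G : Set (Vars m → F)) := by
    intro i j
    have := h.sum_mem X i j
    rw [hG, coe_image]
    exact this
  have hcard : G.card ≤ A.card := card_image_le
  refine le_trans ?_ hcard
  have hm : Fintype.card (Fin m) = m := Fintype.card_fin m
  rcases z with ⟨i, k⟩ | ⟨k, j⟩
  · refine hm.symm.le.trans (card_le_of_diag (F := F)
      (fun j : Fin m => (fun y => ∑ x, X x * D2 x y (entry F m i j) : Vars m → F))
      (fun l => LinearMap.proj (Sum.inr (k, l))) hz (fun j l => ?_) G fun j => hmem i j)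
    rw [LinearMap.proj_apply]
    exact sum_entry_inr X i j k l
  · refine hm.symm.le.trans (card_le_of_diag (F := F)
      (fun i : Fin m => (fun y => ∑ x, X x * D2 x y (entry F m i j) : Vars m → F))
      (fun l => LinearMap.proj (Sum.inl (l, k))) hz (fun i l => ?_) G fun i => hmem i j)
    rw [LinearMap.proj_apply]
    exact sum_entry_inl X i j k l

theorem D2_entry_lr (a b i j k l : Fin m) :
    D2 (Sum.inl (i, k)) (Sum.inr (l, j)) (entry F m a b) =
      if k = l then (if (i, j) = (a, b) then 1 else 0) else 0 := by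
  by_cases h : k = l
  · subst h
    rw [D2_entry_diag, if_pos rfl]
  · rw [D2_entry, if_neg h]
    simp [symM, h]

/-- a nonzero combination of the outputs contains many products -/
theorem Pol.bwd (h : Pol P u v c) {Y : Fin m → Fin m → F} (hY : Y ≠ 0)
    [DecidablePred fun g => ∑ a, ∑ b, Y a b * c a b g ≠ 0] :
    m ≤ 2 * (P.filter fun g => ∑ a, ∑ b, Y a b * c a b g ≠ 0).card := by
  classical
  obtain ⟨i, hi⟩ := Function.ne_iff.1 hY
  obtain ⟨j, hj⟩ := Function.ne_iff.1 hi
  rw [Pi.zero_apply, Pi.zero_apply] at hj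
  set A := P.filter fun g => ∑ a, ∑ b, Y a b * c a b g ≠ 0 with hA
  set G : Finset (Vars m → F) := A.image u ∪ A.image v with hG
  have hcard : G.card ≤ 2 * A.card := by
    have h1 : (A.image u).card ≤ A.card := card_image_le
    have h2 : (A.image v).card ≤ A.card := card_image_le
    exact (card_union_le _ _).trans (by omega)
  refine le_trans ?_ hcard
  have hm : Fintype.card (Fin m) = m := Fintype.card_fin m
  refine hm.symm.le.trans (card_le_of_diag (F := F)
      (fun k : Fin m => (fun y => ∑ a, ∑ b, Y a b * D2 (Sum.inl (i, k)) y (entry F m a b) :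
        Vars m → F))
      (fun l => LinearMap.proj (Sum.inr (l, j))) hj (fun k l => ?_) G fun k => ?_)
  · rw [LinearMap.proj_apply]
    simp only [D2_entry_lr]
    by_cases hkl : k = l
    · rw [if_pos hkl.symm]
      simp only [if_pos hkl]
      rw [Finset.sum_eq_single i]
      · rw [Finset.sum_eq_single j]
        · simp
        · intro b _ hb
          rw [if_neg (fun h' => hb (Prod.mk.inj h').2.symm), mul_zero]
        · intro h'
          exact absurd (mem_univ _) h'
      · intro a _ ha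
        refine sum_eq_zero fun b _ => ?_
        rw [if_neg (fun h' => ha (Prod.mk.inj h').1.symm), mul_zero]
      · intro h'
        exact absurd (mem_univ _) h'
    · rw [if_neg fun h' => hkl h'.symm]
      simp [hkl]
  · have h1 : (fun y => ∑ a, ∑ b, Y a b * D2 (Sum.inl (i, k)) y (entry F m a b) : Vars m → F) =
        ∑ g ∈ P, (∑ a, ∑ b, Y a b * c a b g) •
          (u g (Sum.inl (i, k)) • v g + v g (Sum.inl (i, k)) • u g) := by
      funext y
      simp only [h _ _, Finset.sum_apply, Pi.smul_apply, Pi.add_apply, smul_eq_mul, sum_mul,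
        mul_sum]
      have h2 : ∀ a, ∑ b, ∑ g ∈ P, Y a b * (c a b g * (u g (Sum.inl (i, k)) * v g y +
          u g y * v g (Sum.inl (i, k)))) = ∑ g ∈ P, ∑ b, Y a b * (c a b g *
          (u g (Sum.inl (i, k)) * v g y + u g y * v g (Sum.inl (i, k)))) := fun a => sum_comm
      rw [sum_congr rfl fun a _ => h2 a, sum_comm]
      refine sum_congr rfl fun g _ => sum_congr rfl fun a _ => sum_congr rfl fun b _ => ?_
      ring
    rw [h1]
    refine Submodule.sum_mem _ fun g hg => ?_
    by_cases hg' : ∑ a, ∑ b, Y a b * c a b g = 0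
    · rw [hg', zero_smul]
      exact Submodule.zero_mem _
    · have hgA : g ∈ A := mem_filter.2 ⟨hg, hg'⟩
      refine Submodule.smul_mem _ _ (Submodule.add_mem _ (Submodule.smul_mem _ _ ?_)
        (Submodule.smul_mem _ _ ?_))
      · refine Submodule.subset_span ?_
        rw [hG, coe_union]
        exact Or.inr (by rw [coe_image]; exact ⟨g, hgA, rfl⟩)
      · refine Submodule.subset_span ?_
        rw [hG, coe_union]
        exact Or.inl (by rw [coe_image]; exact ⟨g, hgA, rfl⟩)

theorem Pol.quad {K : Type*} [Field K] (f : F →+* K) (h : Pol P u v c) :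
    IsQuad (K := K) (L := {g // g ∈ P}) (fun g x => f (u g.1 x)) (fun g x => f (v g.1 x))
      (fun g => Matrix.of fun i j => f (c i j g.1)) := by
  classical
  intro G
  ext x y
  rw [symM_expand, Matrix.sum_apply]
  have h1 : ∀ i j, symM (Matrix.single i j (1 : K)) x y = ∑ g : {g // g ∈ P}, f (c i j g.1) *
      (f (u g.1 x) * f (v g.1 y) + f (u g.1 y) * f (v g.1 x)) := by
    intro i j
    rw [← symM_map f, ← D2_entry, h, map_sum, ← Finset.sum_coe_sort P]
    exact sum_congr rfl fun g _ => by simp only [map_mul, map_add]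
  simp only [h1, mul_sum]
  have h2 : ∀ g : {g // g ∈ P},
      (pr G (Matrix.of fun i j => f (c i j g.1)) •
        (Matrix.vecMulVec (fun x => f (u g.1 x)) (fun x => f (v g.1 x)) +
          Matrix.vecMulVec (fun x => f (v g.1 x)) (fun x => f (u g.1 x)))) x y =
      ∑ i, ∑ j, G i j * (f (c i j g.1) *
        (f (u g.1 x) * f (v g.1 y) + f (u g.1 y) * f (v g.1 x))) := by
    intro g
    rw [Matrix.smul_apply, Matrix.add_apply, Matrix.vecMulVec_apply, Matrix.vecMulVec_apply,
      smul_eq_mul]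
    unfold pr
    rw [sum_mul]
    refine sum_congr rfl fun i _ => ?_
    rw [sum_mul]
    refine sum_congr rfl fun j _ => ?_
    rw [Matrix.of_apply]
    ring
  simp only [h2]
  have h3 : ∀ i : Fin m, (∑ j, ∑ g : {g // g ∈ P}, G i j * (f (c i j g.1) *
        (f (u g.1 x) * f (v g.1 y) + f (u g.1 y) * f (v g.1 x)))) =
      ∑ g : {g // g ∈ P}, ∑ j, G i j * (f (c i j g.1) *
        (f (u g.1 x) * f (v g.1 y) + f (u g.1 y) * f (v g.1 x))) :=
    fun i => sum_comm
  rw [sum_congr rfl fun i _ => h3 i, sum_comm]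

/-- the number of the products -/
theorem Pol.card_ge (h : Pol P u v c) (q p : ℕ) (hqp : q * (p + 1) ≤ m) :
    m ^ 2 + (2 * p + 1) * m * q ≤ P.card + q * (p + 1) * (2 * p + 1).choose p := by
  have h4 := core (h.quad (algebraMap F (AlgebraicClosure F))) q p hqp
  rwa [Fintype.card_coe] at h4

/-- asymptotic form -/
theorem Pol.three {δ : ℝ} (hδ : 0 < δ) : ∃ m₀ : ℕ, ∀ (F : Type*) [Field F] (m : ℕ) (κ : Type)
    (P : Finset κ) (u v : κ → Vars m → F) (c : Fin m → Fin m → κ → F), m₀ ≤ m → Pol P u v c →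
    (3 - δ) * (m : ℝ) ^ 2 ≤ P.card := by
  obtain ⟨p, hp⟩ := exists_nat_gt (2 / δ)
  have hp0 : (0 : ℝ) < (p : ℝ) + 1 := by positivity
  have hpδ : 2 < δ * (p + 1) := by
    rw [div_lt_iff₀ hδ] at hp
    nlinarith
  set B : ℝ := (2 * p + 1) + (2 * p + 1).choose p with hB
  have hB0 : 0 < B := by positivity
  obtain ⟨m₀, hm₀⟩ := exists_nat_gt (2 * B / δ)
  refine ⟨m₀, fun F _ m κ P u v c hm h => ?_⟩
  set q := m / (p + 1) with hq
  have hqp : q * (p + 1) ≤ m := Nat.div_mul_le_self _ _
  have hqm : m ≤ q * (p + 1) + p := by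
    have h1 := Nat.div_add_mod m (p + 1)
    have h2 := Nat.mod_lt m (show 0 < p + 1 by omega)
    rw [← hq] at h1
    have h3 : (p + 1) * q = q * (p + 1) := mul_comm _ _
    omega
  have h1 := h.card_ge q p hqp
  have h2 : (m : ℝ) ^ 2 + (2 * p + 1) * m * q ≤ P.card + q * (p + 1) * (2 * p + 1).choose p := by
    exact_mod_cast h1
  have hqpr : (q : ℝ) * (p + 1) ≤ m := by exact_mod_cast hqp
  have hqmr : (m : ℝ) ≤ q * (p + 1) + p := by exact_mod_cast hqm
  have hm0 : (0 : ℝ) ≤ m := by positivity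
  have hmB : 2 * B ≤ δ * m := by
    have h3 : (m₀ : ℝ) ≤ m := by exact_mod_cast hm
    rw [div_lt_iff₀ hδ] at hm₀
    nlinarith
  -- `(2 p + 1) q ≥ (2 - 1 / (p + 1)) (m - p)`
  have h3 : (2 - 1 / ((p : ℝ) + 1)) * (m - p) ≤ (2 * p + 1) * q := by
    have h4 : (2 - 1 / ((p : ℝ) + 1)) * (p + 1) = 2 * p + 1 := by
      field_simp
      ring
    have h5 : 0 ≤ 2 - 1 / ((p : ℝ) + 1) := by
      have : 1 / ((p : ℝ) + 1) ≤ 1 := by
        rw [div_le_one hp0]
        have : (0 : ℝ) ≤ p := by positivity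
        linarith
      linarith
    calc (2 - 1 / ((p : ℝ) + 1)) * (m - p) ≤ (2 - 1 / ((p : ℝ) + 1)) * (q * (p + 1)) :=
          mul_le_mul_of_nonneg_left (by linarith) h5
      _ = (2 * p + 1) * q := by rw [← h4]; ring
  have h4 : 1 / ((p : ℝ) + 1) ≤ δ / 2 := by
    rw [div_le_iff₀ hp0]
    linarith
  have hpr : (0 : ℝ) ≤ p := by positivity
  have hd0 : 0 ≤ 1 / ((p : ℝ) + 1) := by positivity
  have h5 : (q : ℝ) * (p + 1) * (2 * p + 1).choose p ≤ m * (2 * p + 1).choose p :=
    mul_le_mul_of_nonneg_right hqpr (by positivity)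
  have h6 : (2 * m - 2 * p - δ / 2 * m : ℝ) ≤ (2 * p + 1) * q := by
    have h7 : (1 / ((p : ℝ) + 1)) * m ≤ δ / 2 * m := mul_le_mul_of_nonneg_right h4 hm0
    have h8 : 0 ≤ (1 / ((p : ℝ) + 1)) * p := mul_nonneg hd0 hpr
    nlinarith
  have h7 : (2 * m - 2 * p - δ / 2 * m : ℝ) * m ≤ (2 * p + 1) * q * m :=
    mul_le_mul_of_nonneg_right h6 hm0
  have h8 : 2 * B * m ≤ δ * m * m := mul_le_mul_of_nonneg_right hmB hm0
  have h9 : (0 : ℝ) ≤ (2 * p + 1).choose p := by positivity
  rw [hB] at h8
  nlinarith [mul_nonneg hm0 h9, mul_nonneg hm0 hpr]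

end Pool.Agent.K9h26.HG
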