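import Pool.Agent.K9h26.HG.Defs
import Pool.Agent.K9h26.HG.Back
import Pool.Agent.K9h26.HG.Pol

set_option autoImplicit false

/-!
# The quadratic parts of the polynomials computed by a circuit
-/

namespace Pool.Agent.K9h26.HG

open Finset Pool.Agent.H88R3.MM Pool.Agent.H522R2 Pool.Agent.H522R2.Circuit Pool.Agent.W946.Kos
  Pool.Agent.W946.Sz

section general

variable {F V : Type*} [Field F]

/-- the component of degree one -/
noncomputable def l1 (C : Circuit F V) (v : Fin C.nodes) : MvPolynomial V F :=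
  MvPolynomial.homogeneousComponent 1 (C.poly v)

/-- the component of degree two -/
noncomputable def q2 (C : Circuit F V) (v : Fin C.nodes) : MvPolynomial V F :=
  MvPolynomial.homogeneousComponent 2 (C.poly v)

theorem comp_two_mul {f g : MvPolynomial V F} (hf : MvPolynomial.constantCoeff f = 0)
    (hg : MvPolynomial.constantCoeff g = 0) :
    MvPolynomial.homogeneousComponent 2 (f * g) =
      MvPolynomial.homogeneousComponent 1 f * MvPolynomial.homogeneousComponent 1 g := by
  classical
  have hhom : (MvPolynomial.homogeneousComponent 1 f *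
      MvPolynomial.homogeneousComponent 1 g).IsHomogeneous 2 :=
    (MvPolynomial.homogeneousComponent_isHomogeneous 1 f).mul
      (MvPolynomial.homogeneousComponent_isHomogeneous 1 g)
  ext d
  rw [MvPolynomial.coeff_homogeneousComponent]
  split_ifs with hd
  · rw [MvPolynomial.coeff_mul, MvPolynomial.coeff_mul]
    refine sum_congr rfl fun x hx => ?_
    rw [Finset.HasAntidiagonal.mem_antidiagonal] at hx
    rw [MvPolynomial.coeff_homogeneousComponent, MvPolynomial.coeff_homogeneousComponent]
    have h1 : x.1.degree + x.2.degree = 2 := by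
      rw [← hd, ← hx, map_add]
    by_cases h2 : x.1.degree = 0
    · have h3 : x.1 = 0 := (Finsupp.degree_eq_zero_iff _).1 h2
      rw [if_neg (by omega : ¬ x.1.degree = 1), h3]
      rw [MvPolynomial.constantCoeff_eq] at hf
      rw [hf, zero_mul, zero_mul]
    · by_cases h3 : x.2.degree = 0
      · have h4 : x.2 = 0 := (Finsupp.degree_eq_zero_iff _).1 h3
        rw [if_neg (by omega : ¬ x.2.degree = 1), h4]
        rw [MvPolynomial.constantCoeff_eq] at hg
        rw [hg, mul_zero, mul_zero]
      · rw [if_pos (by omega), if_pos (by omega)]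
  · exact (hhom.coeff_eq_zero hd).symm

theorem D1_eq_coeff (x : V) (f : MvPolynomial V F) :
    D1 x f = f.coeff (Finsupp.single x 1) := by
  unfold D1
  rw [MvPolynomial.constantCoeff_eq, MvPolynomial.coeff_pderiv]
  simp

theorem D1_comp_one (x : V) (f : MvPolynomial V F) :
    D1 x (MvPolynomial.homogeneousComponent 1 f) = D1 x f := by
  rw [D1_eq_coeff, D1_eq_coeff, MvPolynomial.coeff_homogeneousComponent, if_pos]
  simp

theorem cc_comp_one (f : MvPolynomial V F) :
    MvPolynomial.constantCoeff (MvPolynomial.homogeneousComponent 1 f) = 0 := by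
  rw [MvPolynomial.constantCoeff_eq, MvPolynomial.coeff_homogeneousComponent, if_neg]
  simp

theorem D2_smul (x y : V) (a : F) (P : MvPolynomial V F) : D2 x y (a • P) = a * D2 x y P := by
  rw [MvPolynomial.smul_eq_C_mul, D2_mul, MvPolynomial.constantCoeff_C, D2_C, D1_C, D1_C]
  ring

/-- not a multiplication by a constant -/
def IsCore (C : Circuit F V) (v : Fin C.nodes) : Prop :=
  ∀ i j, C.gate v = Gate.mul i j → (∀ c : F, C.poly (C.up v i) ≠ MvPolynomial.C c) ∧
    ∀ c : F, C.poly (C.up v j) ≠ MvPolynomial.C c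

theorem exists_core (C : Circuit F V) (u : Fin C.nodes) :
    ∃ (v : Fin C.nodes) (s : F), v ≤ u ∧ IsCore C v ∧ C.poly u = s • C.poly v := by
  induction u using WellFoundedLT.induction with
  | _ u ih =>
  by_cases hc : IsCore C u
  · exact ⟨u, 1, le_rfl, hc, (one_smul _ _).symm⟩
  · unfold IsCore at hc
    push Not at hc
    obtain ⟨i, j, hg, h⟩ := hc
    by_cases hi : ∀ c : F, C.poly (C.up u i) ≠ MvPolynomial.C c
    · obtain ⟨c, hc⟩ := h hi
      obtain ⟨v, s, h1, h2, h3⟩ := ih _ (up_lt u i)
      refine ⟨v, c * s, h1.trans (up_lt u i).le, h2, ?_⟩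
      rw [poly_mul hg, hc, h3, mul_comm, ← MvPolynomial.smul_eq_C_mul, smul_smul]
    · push Not at hi
      obtain ⟨c, hc⟩ := hi
      obtain ⟨v, s, h1, h2, h3⟩ := ih _ (up_lt u j)
      refine ⟨v, c * s, h1.trans (up_lt u j).le, h2, ?_⟩
      rw [poly_mul hg, hc, h3, ← MvPolynomial.smul_eq_C_mul, smul_smul]

/-- choice of a core node for every node -/
structure Red (C : Circuit F V) where
  cor : Fin C.nodes → Fin C.nodes
  sc : Fin C.nodes → F
  le : ∀ u, cor u ≤ u
  core : ∀ u, IsCore C (cor u)
  eq : ∀ u, C.poly u = sc u • C.poly (cor u)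

theorem exists_red (C : Circuit F V) : Nonempty (Red C) := by
  choose cor sc h1 h2 h3 using exists_core C
  exact ⟨⟨cor, sc, h1, h2, h3⟩⟩

variable {C : Circuit F V}

theorem Red.q2_eq (R : Red C) (u : Fin C.nodes) : q2 C u = R.sc u • q2 C (R.cor u) := by
  unfold q2
  rw [R.eq u, map_smul]

open Classical in
/-- the coefficients -/
noncomputable def Red.N (R : Red C) (w v : Fin C.nodes) : F :=
  if q2 C v = 0 then 0 else
    match C.gate w with
    | .add i j => (if R.cor (C.up w i) = v then R.sc (C.up w i) else 0) +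
        (if R.cor (C.up w j) = v then R.sc (C.up w j) else 0)
    | .mul _ _ => 0
    | .var _ => 0
    | .const _ => 0

theorem Red.N_add (R : Red C) {w v : Fin C.nodes} {i j : Fin (w : ℕ)}
    (h : C.gate w = Gate.add i j) (hv : q2 C v ≠ 0) :
    R.N w v = (if R.cor (C.up w i) = v then R.sc (C.up w i) else 0) +
      (if R.cor (C.up w j) = v then R.sc (C.up w j) else 0) := by
  unfold Red.N
  rw [if_neg hv, h]

theorem Red.N_zero (R : Red C) {w v : Fin C.nodes} (hv : q2 C v = 0) : R.N w v = 0 := by
  unfold Red.N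
  rw [if_pos hv]

theorem Red.N_not_add (R : Red C) {w : Fin C.nodes} (h : ¬ ∃ i j, C.gate w = Gate.add i j)
    (v : Fin C.nodes) : R.N w v = 0 := by
  unfold Red.N
  split_ifs with hv
  · rfl
  · cases hg : C.gate w with
    | var x => rfl
    | const x => rfl
    | add i j => exact absurd ⟨i, j, hg⟩ h
    | mul i j => rfl

theorem Red.N_ne_zero (R : Red C) {w v : Fin C.nodes} (h : R.N w v ≠ 0) :
    q2 C v ≠ 0 ∧ ∃ i j, C.gate w = Gate.add i j ∧
      (v = R.cor (C.up w i) ∨ v = R.cor (C.up w j)) := by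
  have h1 : q2 C v ≠ 0 := fun h' => h (R.N_zero h')
  refine ⟨h1, ?_⟩
  by_cases h2 : ∃ i j, C.gate w = Gate.add i j
  · obtain ⟨i, j, hg⟩ := h2
    refine ⟨i, j, hg, ?_⟩
    rw [R.N_add hg h1] at h
    by_contra hcon
    rw [not_or] at hcon
    rw [if_neg fun h' => hcon.1 h'.symm, if_neg fun h' => hcon.2 h'.symm, add_zero] at h
    exact h rfl
  · exact absurd (R.N_not_add h2 v) h

theorem Red.tri (R : Red C) : Tri R.N := by
  intro w v h
  obtain ⟨_, i, j, hg, h1 | h1⟩ := R.N_ne_zero h
  · rw [h1]
    exact (R.le _).trans_lt (up_lt w i)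
  · rw [h1]
    exact (R.le _).trans_lt (up_lt w j)

theorem Red.ins_le (R : Red C) (w : Fin C.nodes) : (ins R.N w).card ≤ 2 := by
  classical
  by_cases h2 : ∃ i j, C.gate w = Gate.add i j
  · obtain ⟨i, j, hg⟩ := h2
    refine (card_le_card (t := {R.cor (C.up w i), R.cor (C.up w j)}) ?_).trans card_le_two
    intro v hv
    unfold ins at hv
    rw [mem_filter] at hv
    obtain ⟨_, i', j', hg', h1⟩ := R.N_ne_zero hv.2
    rw [hg, Gate.add.injEq] at hg'
    rw [mem_insert, mem_singleton, hg'.1, hg'.2]
    exact h1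
  · have : ins R.N w = ∅ := by
      unfold ins
      rw [filter_eq_empty_iff]
      intro v _
      rw [not_not]
      exact R.N_not_add h2 v
    rw [this, card_empty]
    omega

theorem Red.ins_not_add (R : Red C) {w : Fin C.nodes} (h : ¬ ∃ i j, C.gate w = Gate.add i j) :
    (ins R.N w).card = 0 := by
  classical
  have : ins R.N w = ∅ := by
    unfold ins
    rw [filter_eq_empty_iff]
    intro v _
    rw [not_not]
    exact R.N_not_add h v
  rw [this, card_empty]

open Classical in
/-- the part which does not come from the inputs -/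
noncomputable def pp (C : Circuit F V) (w : Fin C.nodes) : MvPolynomial V F :=
  if ∃ i j, C.gate w = Gate.add i j then 0 else q2 C w

theorem Red.sum_N (R : Red C) (w : Fin C.nodes) :
    q2 C w = ∑ v, R.N w v • q2 C v + pp C w := by
  classical
  unfold pp
  split_ifs with h
  · obtain ⟨i, j, hg⟩ := h
    have h1 : ∀ v, R.N w v • q2 C v = (if R.cor (C.up w i) = v then R.sc (C.up w i) • q2 C v else 0)
        + (if R.cor (C.up w j) = v then R.sc (C.up w j) • q2 C v else 0) := by
      intro v
      by_cases hv : q2 C v = 0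
      · rw [hv]; simp
      · rw [R.N_add hg hv, add_smul]
        congr 1 <;> split_ifs <;> simp
    rw [add_zero, sum_congr rfl fun v _ => h1 v, sum_add_distrib, Finset.sum_ite_eq,
      Finset.sum_ite_eq, if_pos (mem_univ _), if_pos (mem_univ _), ← R.q2_eq, ← R.q2_eq]
    unfold q2
    rw [poly_add hg, map_add]
  · rw [sum_eq_zero fun v _ => by rw [R.N_not_add h, zero_smul], zero_add]

theorem q2_var {v : Fin C.nodes} {x : V} (h : C.gate v = Gate.var x) : q2 C v = 0 := by
  unfold q2
  rw [poly_var h, MvPolynomial.homogeneousComponent_of_mem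
    (MvPolynomial.mem_homogeneousSubmodule 1 _ |>.2 (MvPolynomial.isHomogeneous_X F x)), if_neg]
  omega

theorem q2_const {v : Fin C.nodes} {c : F} (h : C.gate v = Gate.const c) : q2 C v = 0 := by
  unfold q2
  rw [poly_const h, MvPolynomial.homogeneousComponent_of_mem
    (MvPolynomial.mem_homogeneousSubmodule 0 _ |>.2 (MvPolynomial.isHomogeneous_C V c)), if_neg]
  omega

/-- a core node with a quadratic part which is not an addition is a nonscalar product -/
theorem core_nonscalar {v : Fin C.nodes} (h1 : IsCore C v) (h2 : q2 C v ≠ 0)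
    (h3 : ¬ ∃ i j, C.gate v = Gate.add i j) : C.IsNonscalar v := by
  cases hg : C.gate v with
  | var x => exact absurd (q2_var hg) h2
  | const x => exact absurd (q2_const hg) h2
  | add i j => exact absurd ⟨i, j, hg⟩ h3
  | mul i j => exact ⟨i, j, hg, (h1 i j hg).1, (h1 i j hg).2⟩

theorem inp_mul {v : Fin C.nodes} {i j : Fin (v : ℕ)} (h : C.gate v = Gate.mul i j) :
    inp C v = (C.up v i, C.up v j) := by
  unfold inp
  rw [h]

theorem q2_nonscalar (hn : NoConstantTerms C) {v : Fin C.nodes} (h : C.IsNonscalar v) :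
    q2 C v = l1 C (inp C v).1 * l1 C (inp C v).2 := by
  obtain ⟨i, j, hg, hi, hj⟩ := h
  have h1 : MvPolynomial.constantCoeff (C.poly (C.up v i)) = 0 :=
    (hn _).resolve_left fun ⟨c, hc⟩ => hi c hc
  have h2 : MvPolynomial.constantCoeff (C.poly (C.up v j)) = 0 :=
    (hn _).resolve_left fun ⟨c, hc⟩ => hj c hc
  rw [inp_mul hg]
  unfold q2 l1
  rw [poly_mul hg, comp_two_mul h1 h2]

theorem leader_add [DecidableEq V] (hn : NoConstantTerms C) {v : Fin C.nodes}
    (h : IsLeader C v) : ∃ i j, C.gate v = Gate.add i j := by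
  rcases h.isGate with h1 | ⟨i, j, hg⟩
  · exact h1
  exfalso
  by_cases hi : ∃ c : F, C.poly (C.up v i) = MvPolynomial.C c
  · obtain ⟨c, hc⟩ := hi
    refine h.2.2 _ (up_lt v j) c ?_
    funext x
    simp only [lin, poly_mul hg, D1_mul, hc, D1_C, MvPolynomial.constantCoeff_C, Pi.smul_apply,
      smul_eq_mul]
    ring
  by_cases hj : ∃ c : F, C.poly (C.up v j) = MvPolynomial.C c
  · obtain ⟨c, hc⟩ := hj
    refine h.2.2 _ (up_lt v i) c ?_
    funext x
    simp only [lin, poly_mul hg, D1_mul, hc, D1_C, MvPolynomial.constantCoeff_C, Pi.smul_apply,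
      smul_eq_mul]
    ring
  refine h.1 ?_
  funext x
  simp only [lin, poly_mul hg, D1_mul, (hn _).resolve_left hi, (hn _).resolve_left hj,
    Pi.zero_apply]
  ring

end general

end Pool.Agent.K9h26.HG
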