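import Pool.Agent.H522R2.Circuit
import Pool.Agent.H88R3.MM.Circ

set_option autoImplicit false

/-!
# Circuits without constant terms: definitions
-/

namespace Pool.Agent.K9h26.HG

open Pool.Agent.H88R3.MM Pool.Agent.H522R2 Pool.Agent.H522R2.Circuit

variable {F V : Type*} [Field F]

/-- the circuit has the entries of the product of two generic `m × m` matrices among the
polynomials which it computes -/
def Computes {m : ℕ} (C : Circuit F (Vars m)) : Prop :=
  ∀ i j, ∃ k : Fin C.nodes, C.poly k = entry F m i j

/-- the number of the addition gates -/
noncomputable def addCount (C : Circuit F V) : ℕ :=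
  Nat.card {v : Fin C.nodes // ∃ i j, C.gate v = Gate.add i j}

/-- every node computes a homogeneous polynomial -/
def Homogeneous (C : Circuit F V) : Prop := ∀ v, ∃ n, (C.poly v).IsHomogeneous n

/-- every node computes a constant or a polynomial without constant term -/
def NoConstantTerms (C : Circuit F V) : Prop :=
  ∀ v, (∃ c : F, C.poly v = MvPolynomial.C c) ∨ MvPolynomial.constantCoeff (C.poly v) = 0

/-- the number of the addition gates whose polynomial has a nonzero component of degree one and a
nonzero component of degree two -/
noncomputable def mixedCount (C : Circuit F V) : ℕ :=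
  Nat.card {v : Fin C.nodes // (∃ i j, C.gate v = Gate.add i j) ∧
    MvPolynomial.homogeneousComponent 1 (C.poly v) ≠ 0 ∧
    MvPolynomial.homogeneousComponent 2 (C.poly v) ≠ 0}

/-- there are `N` products of two linear forms in the entries of the two matrices such that all
entries of the product of the matrices are linear combinations of these products -/
def Quadratic (F : Type*) [Field F] (m N : ℕ) : Prop :=
  ∃ u v : Fin N → MvPolynomial (Vars m) F,
    (∀ l, (u l).IsHomogeneous 1 ∧ (v l).IsHomogeneous 1) ∧
    ∀ i j, entry F m i j ∈ Submodule.span F (Set.range fun l => u l * v l)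

end Pool.Agent.K9h26.HG
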