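import Pool.Agent.K9h26.HG.Mm

set_option autoImplicit false

/-!
# The lower bounds for circuits without constant terms
-/

namespace Pool.Agent.K9h26.HG

open Finset Pool.Agent.H88R3.MM Pool.Agent.H522R2 Pool.Agent.H522R2.Circuit Pool.Agent.W946.Kos
  Pool.Agent.W946.Sz

theorem pick' {K : ℕ} (hK : 0 < K) {η : ℝ} (hη : 0 < η) {B : ℝ} (hB : 0 < B) :
    ∃ m₀ : ℕ, ∀ m : ℕ, m₀ ≤ m → ∃ i : ℕ, 1 ≤ i ∧ K * (4 * i + 3) ≤ m ∧
      B * (m : ℝ) ^ 2 ≤ (1 + η) ^ i := by
  have hKr : (0 : ℝ) < K := by exact_mod_cast hK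
  have h1 := tendsto_pow_const_div_const_pow_of_one_lt 2 (show (1 : ℝ) < 1 + η by linarith)
  have h2 : ∀ᶠ n : ℕ in Filter.atTop, (n : ℝ) ^ 2 / (1 + η) ^ n < 1 / (256 * B * (K : ℝ) ^ 2) :=
    h1.eventually_lt_const (by positivity)
  obtain ⟨I₀, hI₀⟩ := Filter.eventually_atTop.1 h2
  refine ⟨8 * K * (I₀ + 1) + 6 * K, fun m hm => ?_⟩
  have hdm := Nat.div_add_mod m (8 * K)
  have hmod := Nat.mod_lt m (show 0 < 8 * K by omega)
  set i := m / (8 * K) with hi
  have hiI : I₀ + 1 ≤ i := by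
    rw [hi, Nat.le_div_iff_mul_le (by omega)]
    nlinarith
  refine ⟨i, by omega, ?_, ?_⟩
  · have h6 : 6 * K ≤ m := le_trans (Nat.le_add_left _ _) hm
    have h8 : 8 * K * i ≤ m := Nat.mul_div_le _ _
    nlinarith
  · have h3 := hI₀ i (by omega)
    have hi1 : (1 : ℝ) ≤ i := by exact_mod_cast (show 1 ≤ i by omega)
    have h4 : (m : ℝ) ≤ 8 * K * (i + 1) := by
      have : m ≤ 8 * K * (i + 1) := by nlinarith
      exact_mod_cast this
    have h5 : (m : ℝ) ≤ 16 * K * i := by nlinarith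
    have hm0 : (0 : ℝ) ≤ m := by positivity
    have h6 : (m : ℝ) ^ 2 ≤ (16 * K * i) ^ 2 := pow_le_pow_left₀ hm0 h5 2
    have h7 : (256 * B * (K : ℝ) ^ 2) * (i : ℝ) ^ 2 ≤ (1 + η) ^ i := by
      rw [div_lt_div_iff₀ (by positivity) (by positivity)] at h3
      nlinarith
    have h8 := mul_le_mul_of_nonneg_left h6 hB.le
    refine h8.trans (le_trans (le_of_eq ?_) h7)
    ring

universe u

theorem core_bound (δ K : ℝ) (hδ : 0 < δ) : ∃ m₀ : ℕ, ∀ (F : Type u) [Field F] (m : ℕ)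
    (C : Circuit F (Vars m)) (D : Dat C), m₀ ≤ m →
    (3 - δ) * (m : ℝ) ^ 2 ≤ D.P.card ∧
    (K * (m : ℝ) ^ 2 ≤ addCount C ∨ ((6 - δ) * (m : ℝ) ^ 2 ≤ (CC C).card ∧
      D.P.card + (8 - δ) * (m : ℝ) ^ 2 ≤ (CC C).card + D.Q.card)) := by
  -- the parameters
  set K' : ℝ := max K 1 with hK'
  have hK'1 : 1 ≤ K' := le_max_right _ _
  set B : ℝ := 3 * K' + 1 with hB
  have hB4 : 4 ≤ B := by linarith
  set η : ℝ := δ / (15 + 2 * B) with hηdef
  have hη : 0 < η := by positivity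
  have hηB : η * (15 + 2 * B) = δ := by
    rw [hηdef]
    field_simp
  obtain ⟨Δ, hΔ⟩ := exists_nat_gt (3 * B / η + 3)
  have hΔ3 : 3 ≤ Δ := by
    have h1 : 0 < 3 * B / η := by positivity
    have : (3 : ℝ) < Δ := by linarith
    have h2 : 3 < Δ := by exact_mod_cast this
    omega
  have hΔB : 3 * B ≤ η * (Δ + 1) := by
    have h1 : 3 * B / η < Δ := by linarith
    rw [div_lt_iff₀ hη] at h1
    nlinarith
  obtain ⟨r, hr⟩ := exists_nat_gt (1 / η)
  have hr1 : 1 < η * r := by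
    rw [div_lt_iff₀ hη] at hr
    linarith
  have hr2 : 1 ≤ η * 2 ^ r := by
    have h1 : (r : ℝ) ≤ 2 ^ r := by exact_mod_cast (Nat.lt_two_pow_self (n := r)).le
    nlinarith
  have hr0 : (0 : ℝ) < r := by
    by_contra h
    push Not at h
    nlinarith
  obtain ⟨m₀, hm₀⟩ := pick' (K := Δ * (1 + Δ) ^ r) (by positivity) hη (B := B) (by positivity)
  obtain ⟨m₁, hm₁⟩ := Pol.three.{u} hδ
  refine ⟨max (max m₀ m₁) 1, fun F _ m C D hm => ?_⟩
  have hmm₀ : m₀ ≤ m := (le_max_left _ _).trans ((le_max_left _ _).trans hm)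
  have hmm₁ : m₁ ≤ m := (le_max_right _ _).trans ((le_max_left _ _).trans hm)
  have hm1 : 1 ≤ m := (le_max_right _ _).trans hm
  refine ⟨hm₁ F m _ D.P _ _ D.c hmm₁ D.pol, ?_⟩
  by_cases hA : K * (m : ℝ) ^ 2 ≤ addCount C
  · exact Or.inl hA
  right
  push Not at hA
  obtain ⟨i, hi, hT, hp⟩ := hm₀ m hmm₀
  set M : ℝ := (m : ℝ) ^ 2 with hM
  have hM0 : 0 < M := by
    have : (0 : ℝ) < m := by exact_mod_cast (show 0 < m by omega)
    positivity
  have hA' : (addCount C : ℝ) ≤ K' * M := by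
    have h1 : K * M ≤ K' * M := mul_le_mul_of_nonneg_right (le_max_left _ _) hM0.le
    linarith
  have hCC : ((CC C).card : ℝ) ≤ addCount C := by
    classical
    rw [addCount_eq]
    exact_mod_cast card_le_card fun v hv => mem_filter.2 ⟨mem_univ _, leader_add D.hn (mem_CC.1 hv)⟩
  have hQ : (D.Q.card : ℝ) ≤ addCount C := by
    classical
    rw [addCount_eq]
    exact_mod_cast card_le_card fun v hv => mem_filter.2 ⟨mem_univ _, (D.mem_Q.1 hv).2⟩
  have hP : (D.P.card : ℝ) ≤ 2 * D.Q.card + M := by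
    have := D.card_P_le
    have h1 : (D.P.card : ℝ) ≤ 2 * D.Q.card + (m : ℝ) ^ 2 := by exact_mod_cast this
    exact h1
  set c : ℝ := ((CC C).card : ℝ) with hc
  set p : ℝ := (D.P.card : ℝ) with hpdef
  set q : ℝ := (D.Q.card : ℝ) with hq
  have hc0 : 0 ≤ c := by positivity
  have hp0 : 0 ≤ p := by positivity
  have hq0 : 0 ≤ q := by positivity
  have hpq : p + q ≤ B * M := by nlinarith
  have hcp : 3 * c + 2 * p ≤ 3 * (B * M) := by nlinarith
  -- forward
  have hf := D.forward (r := r) hm1 hη hi (show 0 < Δ by omega) (by rw [← hc]; nlinarith)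
    (by rw [← mul_assoc]; exact hT)
  rw [← hM, ← hc, ← hpdef] at hf
  have h2 : (3 * c + 2 * p) / (Δ + 1) ≤ η * M := by
    rw [div_le_iff₀ (by positivity)]
    nlinarith [mul_le_mul_of_nonneg_right hΔB hM0.le]
  have h3 : (1 + η) * c ≥ 6 * M - 9 * η * M := by
    set Y : ℝ := 3 * (2 * M - (3 * c + 2 * p) / (Δ + 1)) - (1 + η) * c with hY
    have h4 : Y ≤ 6 * η * M := by
      by_cases hY0 : Y ≤ 0
      · exact hY0.trans (by positivity)
      · push Not at hY0
        have h5 : Y ≤ Y * (η * 2 ^ r) := le_mul_of_one_le_right hY0.le hr2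
        have h6 : Y * (η * 2 ^ r) = η * (2 ^ r * Y) := by ring
        rw [h6] at h5
        have h7 := mul_le_mul_of_nonneg_left hf hη.le
        linarith
    rw [hY] at h4
    linarith
  have h4 : (6 - 15 * η) * M ≤ c := by
    by_contra hcon
    push Not at hcon
    have h5 : (1 + η) * c < (1 + η) * ((6 - 15 * η) * M) :=
      mul_lt_mul_of_pos_left hcon (by linarith)
    nlinarith [mul_pos hη hM0, mul_pos hη (mul_pos hη hM0)]
  -- backward
  have hb := D.backward (r := r) hη hi (by rw [← hpdef, ← hq]; linarith) (by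
    refine le_trans ?_ hT
    rw [← mul_assoc]
    refine Nat.mul_le_mul_right _ ?_
    refine Nat.mul_le_mul (by omega) (Nat.pow_le_pow_left (by omega) r))
  rw [← hM, ← hpdef, ← hq] at hb
  have h5 : 2 * M + p - q ≤ 2 * η * (B * M) := by
    have h6 : (1 + r * η) * (p + q) ≤ (1 + r * η) * (B * M) :=
      mul_le_mul_of_nonneg_left hpq (by positivity)
    have h7 : (1 + r * η) * (B * M) ≤ r * (2 * η * (B * M)) := by
      have h8 : 0 < B * M := by positivity
      nlinarith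
    exact le_of_mul_le_mul_left (hb.trans (h6.trans h7)) hr0
  have hδM : (15 * η + 2 * η * B) * M = δ * M := by
    rw [← hηB]; ring
  have hBη : 0 ≤ 2 * η * B * M := by positivity
  have hηM : 0 ≤ η * M := by positivity
  constructor
  · nlinarith
  · nlinarith

theorem size_ge {F V : Type*} [Field F] (C : Circuit F V) :
    addCount C + C.nonscalarCount ≤ C.size := by
  classical
  unfold addCount Circuit.nonscalarCount Circuit.size
  simp only [Nat.card_eq_fintype_card, Fintype.card_subtype]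
  rw [← card_union_of_disjoint]
  · refine card_le_card fun v hv => ?_
    rw [mem_union, mem_filter, mem_filter] at hv
    rw [mem_filter]
    rcases hv with ⟨_, h⟩ | ⟨_, i, j, h, _⟩
    · exact ⟨mem_univ _, Or.inl h⟩
    · exact ⟨mem_univ _, Or.inr ⟨i, j, h⟩⟩
  · rw [Finset.disjoint_left]
    intro v hv hv'
    rw [mem_filter] at hv hv'
    obtain ⟨_, i, j, h⟩ := hv
    obtain ⟨_, i', j', h', _⟩ := hv'
    rw [h] at h'
    cases h'

theorem Homogeneous.noConstantTerms {F V : Type*} [Field F] {C : Circuit F V}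
    (h : Homogeneous C) : NoConstantTerms C := by
  intro v
  obtain ⟨n, hn⟩ := h v
  by_cases h0 : n = 0
  · subst h0
    left
    have h1 := (MvPolynomial.totalDegree_zero_iff_isHomogeneous V).2 hn
    exact ⟨_, MvPolynomial.totalDegree_eq_zero_iff_eq_C.1 h1⟩
  · right
    rw [MvPolynomial.constantCoeff_eq]
    exact hn.coeff_eq_zero (by rw [map_zero]; exact fun h' => h0 h'.symm)

theorem Homogeneous.mixed {F V : Type*} [Field F] {C : Circuit F V}
    (h : Homogeneous C) : mixedCount C = 0 := by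
  unfold mixedCount
  rw [Nat.card_eq_zero]
  left
  refine ⟨fun ⟨v, _, h1, h2⟩ => ?_⟩
  obtain ⟨n, hn⟩ := h v
  rw [MvPolynomial.homogeneousComponent_of_mem
    ((MvPolynomial.mem_homogeneousSubmodule n _).2 hn)] at h1 h2
  by_cases h3 : n = 1
  · rw [if_neg (by omega)] at h2
    exact h2 rfl
  · rw [if_neg (fun h' => h3 h'.symm)] at h1
    exact h1 rfl

/-- the bounds for circuits without constant terms -/
theorem bounds (δ K : ℝ) (hδ : 0 < δ) : ∃ m₀ : ℕ, ∀ (F : Type u) [Field F] (m : ℕ)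
    (C : Circuit F (Vars m)), m₀ ≤ m → Computes C → NoConstantTerms C →
    (∃ N : ℕ, Quadratic F m N ∧ N ≤ C.nonscalarCount ∧ (3 - δ) * (m : ℝ) ^ 2 ≤ N ∧
      min (K * (m : ℝ) ^ 2) ((8 - δ) * (m : ℝ) ^ 2 + N) ≤ addCount C + mixedCount C) ∧
    (11 - δ) * (m : ℝ) ^ 2 ≤ addCount C + mixedCount C ∧
    (14 - δ) * (m : ℝ) ^ 2 ≤ addCount C + C.nonscalarCount + mixedCount C ∧
    (7 - δ) * (m : ℝ) ^ 2 ≤ addCount C ∧
    (10 - δ) * (m : ℝ) ^ 2 ≤ addCount C + C.nonscalarCount := by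
  obtain ⟨m₀, hm₀⟩ := core_bound (δ / 3) (max K 11) (by positivity)
  refine ⟨max m₀ 2, fun F _ m C hm hC hn => ?_⟩
  have hmm₀ : m₀ ≤ m := (le_max_left _ _).trans hm
  have hm2 : 2 ≤ m := (le_max_right _ _).trans hm
  obtain ⟨D⟩ := exists_dat hn hC
  obtain ⟨h1, h2⟩ := hm₀ F m C D hmm₀
  set M : ℝ := (m : ℝ) ^ 2 with hM
  have hM0 : 0 ≤ M := by positivity
  have h3 : ((CC C).card : ℝ) + D.Q.card ≤ addCount C + mixedCount C := by
    exact_mod_cast D.card_add_mixed
  have h4 : (D.P.card : ℝ) ≤ C.nonscalarCount := by exact_mod_cast D.card_P_le_nonscalar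
  have h5 : ((CC C).card : ℝ) + M ≤ addCount C := by
    have h : ((CC C).card : ℝ) + (m : ℝ) ^ 2 ≤ addCount C := by
      exact_mod_cast D.card_add_outputs hm2
    exact h
  have h6 : (0 : ℝ) ≤ mixedCount C := by positivity
  have hK : K * M ≤ max K 11 * M := mul_le_mul_of_nonneg_right (le_max_left _ _) hM0
  have h11 : 11 * M ≤ max K 11 * M := mul_le_mul_of_nonneg_right (le_max_right _ _) hM0
  have hδM : 0 ≤ δ * M := by positivity
  refine ⟨⟨D.P.card, D.quadratic, D.card_P_le_nonscalar, by nlinarith, ?_⟩, ?_, ?_, ?_, ?_⟩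
  · rcases h2 with h2 | ⟨_, h2⟩
    · exact (min_le_left _ _).trans (by linarith)
    · exact (min_le_right _ _).trans (by nlinarith)
  · rcases h2 with h2 | ⟨_, h2⟩ <;> nlinarith
  · rcases h2 with h2 | ⟨_, h2⟩ <;> nlinarith
  · rcases h2 with h2 | ⟨h2, _⟩ <;> nlinarith
  · rcases h2 with h2 | ⟨h2, _⟩ <;> nlinarith

end Pool.Agent.K9h26.HG
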