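import Pool.Agent.K9h26.HG.Circ

set_option autoImplicit false

/-!
# Circuits without constant terms which multiply matrices
-/

namespace Pool.Agent.K9h26.HG

open Finset Pool.Agent.H88R3.MM Pool.Agent.H522R2 Pool.Agent.H522R2.Circuit Pool.Agent.W946.Kos
  Pool.Agent.W946.Sz

variable {F : Type*} [Field F] {m : ℕ} {C : Circuit F (Vars m)}

theorem entry_hom (i j : Fin m) : (entry F m i j).IsHomogeneous 2 := by
  unfold entry
  exact MvPolynomial.IsHomogeneous.sum _ _ _ fun k _ =>
    (MvPolynomial.isHomogeneous_X F _).mul (MvPolynomial.isHomogeneous_X F _)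

theorem entry_ne_zero (i j : Fin m) : entry F m i j ≠ 0 := by
  intro h
  have h1 := coeff_mono (F := F) i j i
  rw [h, MvPolynomial.coeff_zero] at h1
  exact zero_ne_one h1

theorem comp_entry (i j : Fin m) :
    MvPolynomial.homogeneousComponent 2 (entry F m i j) = entry F m i j := by
  rw [MvPolynomial.homogeneousComponent_of_mem
    ((MvPolynomial.mem_homogeneousSubmodule 2 _).2 (entry_hom i j)), if_pos rfl]

/-- the data -/
structure Dat (C : Circuit F (Vars m)) extends Red C where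
  hn : NoConstantTerms C
  out : Fin m × Fin m → Fin C.nodes
  hout : ∀ a, C.poly (out a) = entry F m a.1 a.2

/-- the output nodes -/
def Dat.o (D : Dat C) (a : Fin m × Fin m) : Fin C.nodes := D.cor (D.out a)

/-- the factors -/
def Dat.s (D : Dat C) (a : Fin m × Fin m) : F := D.sc (D.out a)

theorem Dat.poly_o (D : Dat C) (a : Fin m × Fin m) :
    entry F m a.1 a.2 = D.s a • C.poly (D.o a) := by
  rw [← D.hout a]
  exact D.eq _

theorem Dat.s_ne (D : Dat C) (a : Fin m × Fin m) : D.s a ≠ 0 := by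
  intro h
  have h1 := D.poly_o a
  rw [h, zero_smul] at h1
  exact entry_ne_zero _ _ h1

theorem Dat.q2_o (D : Dat C) (a : Fin m × Fin m) :
    entry F m a.1 a.2 = D.s a • q2 C (D.o a) := by
  have h1 := congrArg (MvPolynomial.homogeneousComponent 2) (D.poly_o a)
  rw [comp_entry, map_smul] at h1
  exact h1

theorem Dat.q2_ne (D : Dat C) (a : Fin m × Fin m) : q2 C (D.o a) ≠ 0 := by
  intro h
  have h1 := D.q2_o a
  rw [h, smul_zero] at h1
  exact entry_ne_zero _ _ h1

theorem Dat.LV_core (D : Dat C) {v : Fin C.nodes} (h : v ∈ LV D.N D.o) :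
    IsCore C v ∧ q2 C v ≠ 0 := by
  obtain ⟨y, hy⟩ := mem_LV.1 h
  rw [back_eq D.tri] at hy
  by_cases h3 : rhs D.o y v = 0
  · rw [h3, add_zero] at hy
    obtain ⟨w, _, hw⟩ := exists_ne_zero_of_sum_ne_zero hy
    obtain ⟨h4, i, j, _, h5 | h5⟩ := D.N_ne_zero (left_ne_zero_of_mul hw)
    · exact ⟨h5 ▸ D.core _, h4⟩
    · exact ⟨h5 ▸ D.core _, h4⟩
  · unfold rhs at h3
    obtain ⟨a, _, ha⟩ := exists_ne_zero_of_sum_ne_zero h3
    have h4 : D.o a = v := by
      by_contra h
      exact ha (if_neg h)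
    rw [← h4]
    exact ⟨D.core _, D.q2_ne a⟩

open Classical in
/-- the live products -/
noncomputable def Dat.P (D : Dat C) : Finset (Fin C.nodes) :=
  (LV D.N D.o).filter fun v => ¬ ∃ i j, C.gate v = Gate.add i j

open Classical in
/-- the live additions -/
noncomputable def Dat.Q (D : Dat C) : Finset (Fin C.nodes) :=
  (LV D.N D.o).filter fun v => ∃ i j, C.gate v = Gate.add i j

theorem Dat.mem_P (D : Dat C) {v : Fin C.nodes} :
    v ∈ D.P ↔ v ∈ LV D.N D.o ∧ ¬ ∃ i j, C.gate v = Gate.add i j := by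
  classical
  unfold Dat.P
  rw [mem_filter]

theorem Dat.mem_Q (D : Dat C) {v : Fin C.nodes} :
    v ∈ D.Q ↔ v ∈ LV D.N D.o ∧ ∃ i j, C.gate v = Gate.add i j := by
  classical
  unfold Dat.Q
  rw [mem_filter]

theorem Dat.card_LV (D : Dat C) : (LV D.N D.o).card = D.P.card + D.Q.card := by
  classical
  have h : LV D.N D.o = D.P ∪ D.Q := by
    ext v
    rw [mem_union, D.mem_P, D.mem_Q]
    tauto
  rw [h, card_union_of_disjoint]
  rw [Finset.disjoint_left]
  intro v hv hv'
  exact (D.mem_P.1 hv).2 (D.mem_Q.1 hv').2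

theorem Dat.P_nonscalar (D : Dat C) {v : Fin C.nodes} (h : v ∈ D.P) : C.IsNonscalar v := by
  obtain ⟨h1, h2⟩ := D.mem_P.1 h
  obtain ⟨h3, h4⟩ := D.LV_core h1
  exact core_nonscalar h3 h4 h2

/-- the coefficients of the quadratic algorithm -/
noncomputable def Dat.c (D : Dat C) (i j : Fin m) (g : Fin C.nodes) : F :=
  D.s (i, j) * back D.N D.o (Pi.single (i, j) 1) g

theorem Dat.entry_eq (D : Dat C) (i j : Fin m) :
    entry F m i j = ∑ g ∈ D.P, D.c i j g • (l1 C (inp C g).1 * l1 C (inp C g).2) := by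
  classical
  have h1 := transpose (q := q2 C) (p := pp C) (out := D.o) D.tri D.sum_N
    (Pi.single (i, j) (1 : F))
  have h2 : ∑ a, (Pi.single (i, j) (1 : F) : Fin m × Fin m → F) a • q2 C (D.o a) =
      q2 C (D.o (i, j)) := by
    rw [Finset.sum_eq_single (i, j)]
    · rw [Pi.single_eq_same, one_smul]
    · intro a _ ha
      rw [Pi.single_eq_of_ne ha, zero_smul]
    · intro h
      exact absurd (mem_univ _) h
  rw [h2] at h1
  have h3 : ∑ w, back D.N D.o (Pi.single (i, j) 1) w • pp C w =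
      ∑ w ∈ D.P, back D.N D.o (Pi.single (i, j) 1) w • pp C w := by
    symm
    refine sum_subset (subset_univ _) fun w _ hw => ?_
    rw [D.mem_P, not_and_or, not_not] at hw
    rcases hw with hw | hw
    · rw [back_not_LV hw, zero_smul]
    · unfold pp
      rw [if_pos hw, smul_zero]
  have h4 : entry F m i j = D.s (i, j) • q2 C (D.o (i, j)) := D.q2_o (i, j)
  rw [h4, ← h1, h3, smul_sum]
  refine sum_congr rfl fun g hg => ?_
  rw [smul_smul, ← q2_nonscalar D.hn (D.P_nonscalar hg)]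
  unfold pp
  rw [if_neg (D.mem_P.1 hg).2]
  rfl

theorem Dat.pol (D : Dat C) :
    Pol D.P (fun g => lin C (inp C g).1) (fun g => lin C (inp C g).2) D.c := by
  intro i j x y
  rw [D.entry_eq i j, D2_sum]
  refine sum_congr rfl fun g _ => ?_
  rw [D2_smul, D2_mul]
  unfold l1
  rw [cc_comp_one, cc_comp_one, D1_comp_one, D1_comp_one, D1_comp_one, D1_comp_one]
  simp only [lin]
  ring

theorem Dat.quadratic (D : Dat C) : Quadratic F m D.P.card := by
  classical
  refine ⟨fun l => l1 C (inp C (D.P.equivFin.symm l).1).1,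
    fun l => l1 C (inp C (D.P.equivFin.symm l).1).2, fun l => ⟨?_, ?_⟩, fun i j => ?_⟩
  · exact MvPolynomial.homogeneousComponent_isHomogeneous _ _
  · exact MvPolynomial.homogeneousComponent_isHomogeneous _ _
  · rw [D.entry_eq i j]
    refine Submodule.sum_mem _ fun g hg => Submodule.smul_mem _ _ (Submodule.subset_span ?_)
    exact ⟨D.P.equivFin ⟨g, hg⟩, by simp⟩

/-- the distance of the backward part -/
theorem Dat.dist_back (D : Dat C) {T : ℕ} (hT : 2 * T ≤ m) :
    Dist (bH D.N D.o) (bE D.N D.o) (LV D.N D.o) T := by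
  classical
  intro x hx h0
  set y : Fin m × Fin m → F := fun a => x (Sum.inr a) with hy
  have h1 : ∀ v, x (Sum.inl v) = back D.N D.o y v := sol_eq D.tri hx
  have hy0 : y ≠ 0 := by
    intro h
    apply h0
    funext e
    rcases e with v | a
    · rw [h1, h, back_zero D.tri, Pi.zero_apply]
    · exact congrFun h a
  set Y : Fin m → Fin m → F := fun i j => y (i, j) * (D.s (i, j))⁻¹ with hY
  have hY0 : Y ≠ 0 := by
    intro h
    apply hy0
    funext a
    have h2 : Y a.1 a.2 = 0 := by rw [h]; rfl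
    rw [hY] at h2
    exact (mul_eq_zero.1 h2).resolve_right (inv_ne_zero (D.s_ne _))
  have h2 := D.pol.bwd hY0
  have h3 : ∀ g, ∑ a, ∑ b, Y a b * D.c a b g = x (Sum.inl g) := by
    intro g
    rw [h1, back_expand D.tri, Fintype.sum_prod_type]
    refine sum_congr rfl fun a _ => sum_congr rfl fun b _ => ?_
    simp only [hY, Dat.c]
    have := D.s_ne (a, b)
    field_simp
  have h4 : (D.P.filter fun g => ∑ a, ∑ b, Y a b * D.c a b g ≠ 0).card ≤
      (spt (bE D.N D.o) x).card := by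
    refine card_le_card_of_injOn Sum.inl (fun g hg => ?_) Sum.inl_injective.injOn
    rw [mem_coe, mem_filter, h3] at hg
    rw [mem_coe]
    unfold spt bE
    rw [mem_filter, inl_mem_disjSum]
    exact ⟨(D.mem_P.1 hg.1).1, hg.2⟩
  omega

theorem Dat.sum_ins (D : Dat C) :
    (D.P.card : ℝ) - D.Q.card ≤ ∑ w ∈ LV D.N D.o, (1 - ((ins D.N w).card : ℝ)) := by
  classical
  have h1 : ∑ w ∈ LV D.N D.o, (1 - ((ins D.N w).card : ℝ)) =
      ∑ w ∈ D.Q, (1 - ((ins D.N w).card : ℝ)) + ∑ w ∈ D.P, (1 - ((ins D.N w).card : ℝ)) :=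
    (sum_filter_add_sum_filter_not _ _ _).symm
  rw [h1]
  have h2 : ∑ w ∈ D.P, (1 - ((ins D.N w).card : ℝ)) = D.P.card := by
    rw [sum_congr rfl fun w hw => by
      rw [D.ins_not_add (D.mem_P.1 hw).2, Nat.cast_zero, sub_zero]]
    simp
  have h3 : -(D.Q.card : ℝ) ≤ ∑ w ∈ D.Q, (1 - ((ins D.N w).card : ℝ)) := by
    have h4 : ∑ w ∈ D.Q, (-1 : ℝ) ≤ ∑ w ∈ D.Q, (1 - ((ins D.N w).card : ℝ)) := by
      refine sum_le_sum fun w _ => ?_
      have h5 : ((ins D.N w).card : ℝ) ≤ 2 := by exact_mod_cast D.ins_le w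
      linarith
    rw [sum_const, nsmul_eq_mul, mul_neg, mul_one] at h4
    exact h4
  rw [h2]
  linarith

/-- few products are live -/
theorem Dat.card_P_le (D : Dat C) : D.P.card ≤ 2 * D.Q.card + m ^ 2 := by
  classical
  have h1 : D.P ⊆ (D.Q.biUnion fun w => ins D.N w) ∪ univ.image D.o := by
    intro v hv
    obtain ⟨y, hy⟩ := mem_LV.1 (D.mem_P.1 hv).1
    rw [mem_union]
    rw [back_eq D.tri] at hy
    by_cases h3 : rhs D.o y v = 0
    · left
      rw [h3, add_zero] at hy
      obtain ⟨w, _, hw⟩ := exists_ne_zero_of_sum_ne_zero hy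
      have h4 := left_ne_zero_of_mul hw
      obtain ⟨_, i, j, hg, _⟩ := D.N_ne_zero h4
      rw [mem_biUnion]
      refine ⟨w, D.mem_Q.2 ⟨mem_LV.2 ⟨y, right_ne_zero_of_mul hw⟩, i, j, hg⟩, ?_⟩
      unfold ins
      rw [mem_filter]
      exact ⟨mem_univ _, h4⟩
    · right
      unfold rhs at h3
      obtain ⟨a, _, ha⟩ := exists_ne_zero_of_sum_ne_zero h3
      rw [mem_image]
      refine ⟨a, mem_univ _, ?_⟩
      by_contra h
      exact ha (if_neg h)
  refine (card_le_card h1).trans ((card_union_le _ _).trans (Nat.add_le_add ?_ ?_))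
  · refine card_biUnion_le.trans ?_
    refine (sum_le_card_nsmul _ _ 2 fun w _ => D.ins_le w).trans ?_
    rw [smul_eq_mul, mul_comm]
  · refine card_image_le.trans ?_
    rw [card_univ, Fintype.card_prod, Fintype.card_fin, sq]

/-- **The backward bound** -/
theorem Dat.backward (D : Dat C) {i r : ℕ} {ε : ℝ} (hε : 0 < ε) (hi : 1 ≤ i)
    (hC : (D.P.card : ℝ) + D.Q.card ≤ (1 + ε) ^ i) (hT : 2 * (4 ^ r * (4 * i + 3)) ≤ m) :
    (r : ℝ) * (2 * (m : ℝ) ^ 2 + D.P.card - D.Q.card) ≤
      (1 + r * ε) * (D.P.card + D.Q.card) := by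
  classical
  have h0 : ((LV D.N D.o).card : ℝ) = D.P.card + D.Q.card := by exact_mod_cast D.card_LV
  have h1 := back_bound (N := D.N) (out := D.o) D.tri D.ins_le hε hi (by rw [h0]; exact hC)
    (D.dist_back hT)
  rw [h0] at h1
  refine le_trans (mul_le_mul_of_nonneg_left ?_ (by positivity)) h1
  have h2 := D.sum_ins
  rw [Fintype.card_prod, Fintype.card_fin]
  push_cast
  nlinarith

/-! ### the forward part -/

open Classical in
/-- the live products which use a symbol -/
noncomputable def Dat.use (D : Dat C) (S : Sys C) (s : Vars m ⊕ Fin C.nodes) :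
    Finset (Fin C.nodes) :=
  D.P.filter fun g => S.rep (inp C g).1 = s ∨ S.rep (inp C g).2 = s

open Classical in
/-- the symbols which are not used often -/
noncomputable def Dat.light (D : Dat C) (S : Sys C) (Δ : ℕ) : Finset (Vars m ⊕ Fin C.nodes) :=
  (EE C).filter fun s => (eqs S.H (CC C) s).card ≤ Δ ∧ (D.use S s).card ≤ Δ

theorem Dat.dist_fwd (D : Dat C) (S : Sys C) {Δ T : ℕ} (hΔ : 0 < Δ) (h : Δ * T ≤ m) :
    Dist S.H (D.light S Δ) (CC C) T := by
  classical
  intro x hx h0
  have hX := S.ne_zero (filter_subset _ _) hx h0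
  have h1 := D.pol.fwd hX
  have h2 : (D.P.filter fun g => dotProduct (lin C (inp C g).1) (fun z => x (Sum.inl z)) ≠ 0 ∨
      dotProduct (lin C (inp C g).2) (fun z => x (Sum.inl z)) ≠ 0) ⊆
      (spt (D.light S Δ) x).biUnion (D.use S) := by
    intro g hg
    rw [mem_filter, S.lin_dot hx, S.lin_dot hx] at hg
    rw [mem_biUnion]
    rcases hg.2 with h3 | h3
    · have h4 : x (S.rep (inp C g).1) ≠ 0 := right_ne_zero_of_mul h3
      refine ⟨S.rep (inp C g).1, ?_, ?_⟩
      · unfold spt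
        rw [mem_filter]
        refine ⟨?_, h4⟩
        by_contra h5
        exact h4 (hx.1 _ h5)
      · unfold Dat.use
        rw [mem_filter]
        exact ⟨hg.1, Or.inl rfl⟩
    · have h4 : x (S.rep (inp C g).2) ≠ 0 := right_ne_zero_of_mul h3
      refine ⟨S.rep (inp C g).2, ?_, ?_⟩
      · unfold spt
        rw [mem_filter]
        refine ⟨?_, h4⟩
        by_contra h5
        exact h4 (hx.1 _ h5)
      · unfold Dat.use
        rw [mem_filter]
        exact ⟨hg.1, Or.inr rfl⟩
  have h3 : (D.P.filter fun g => dotProduct (lin C (inp C g).1) (fun z => x (Sum.inl z)) ≠ 0 ∨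
      dotProduct (lin C (inp C g).2) (fun z => x (Sum.inl z)) ≠ 0).card ≤
      (spt (D.light S Δ) x).card * Δ := by
    refine (card_le_card h2).trans (card_biUnion_le.trans ?_)
    refine (sum_le_card_nsmul _ _ Δ fun s hs => ?_).trans (le_of_eq (smul_eq_mul _ _))
    unfold spt Dat.light at hs
    rw [mem_filter, mem_filter] at hs
    exact hs.1.2.2
  have h4 : Δ * T ≤ Δ * (spt (D.light S Δ) x).card := by
    rw [mul_comm Δ (Finset.card _)]
    exact h.trans (h1.trans h3)
  exact Nat.le_of_mul_le_mul_left h4 hΔ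

theorem Dat.sum_use (D : Dat C) (S : Sys C) :
    ∑ s ∈ EE C, (D.use S s).card ≤ 2 * D.P.card := by
  classical
  have h1 : ∑ s ∈ EE C, (D.use S s).card ≤ ∑ s, (D.use S s).card :=
    sum_le_sum_of_subset (subset_univ _)
  refine h1.trans ?_
  unfold Dat.use
  simp only [card_filter]
  rw [sum_comm]
  refine (sum_le_card_nsmul _ _ 2 fun g _ => ?_).trans ?_
  · rw [← card_filter]
    refine (card_le_card (t := {S.rep (inp C g).1, S.rep (inp C g).2}) ?_).trans card_le_two
    intro s hs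
    rw [mem_filter] at hs
    rw [mem_insert, mem_singleton]
    rcases hs.2 with h | h
    · exact Or.inl h.symm
    · exact Or.inr h.symm
  · rw [smul_eq_mul, mul_comm]

theorem Dat.heavy (D : Dat C) (S : Sys C) (Δ : ℕ) :
    (Δ + 1) * (EE C).card ≤ (Δ + 1) * (D.light S Δ).card + 3 * (CC C).card +
      2 * D.P.card := by
  classical
  have h1 : ∑ s ∈ EE C, (eqs S.H (CC C) s).card ≤ 3 * (CC C).card := by
    rw [count_inc]
    refine (sum_le_card_nsmul _ _ 3 fun c _ => S.row_card _ c).trans (le_of_eq ?_)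
    rw [smul_eq_mul, mul_comm]
  have h2 := D.sum_use S
  have h3 : ∑ s ∈ EE C, (Δ + 1) ≤ ∑ s ∈ EE C, ((if (eqs S.H (CC C) s).card ≤ Δ ∧
      (D.use S s).card ≤ Δ then (Δ + 1) else 0) +
        ((eqs S.H (CC C) s).card + (D.use S s).card)) := by
    refine sum_le_sum fun s _ => ?_
    by_cases h : (eqs S.H (CC C) s).card ≤ Δ ∧ (D.use S s).card ≤ Δ
    · rw [if_pos h]
      exact Nat.le_add_right _ _
    · rw [if_neg h]
      omega
  rw [sum_const, smul_eq_mul, sum_add_distrib, sum_add_distrib] at h3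
  have h4 : ∑ s ∈ EE C, (if (eqs S.H (CC C) s).card ≤ Δ ∧ (D.use S s).card ≤ Δ then (Δ + 1)
      else 0) = (D.light S Δ).card * (Δ + 1) := by
    rw [← sum_filter, sum_const, smul_eq_mul]
    rfl
  rw [h4] at h3
  nlinarith

/-- **The forward bound** -/
theorem Dat.forward (D : Dat C) (hm : 0 < m) {i Δ r : ℕ} {ε : ℝ} (hε : 0 < ε) (hi : 1 ≤ i)
    (hΔ : 0 < Δ) (hC : ((CC C).card : ℝ) ≤ (1 + ε) ^ i)
    (hT : Δ * ((1 + Δ) ^ r * (4 * i + 3)) ≤ m) :
    (2 : ℝ) ^ r * (3 * (2 * (m : ℝ) ^ 2 - (3 * (CC C).card + 2 * D.P.card) / (Δ + 1)) -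
      (1 + ε) * (CC C).card) ≤ 3 * (2 * (m : ℝ) ^ 2) := by
  classical
  have : Nonempty (Vars m) := ⟨Sum.inl (⟨0, hm⟩, ⟨0, hm⟩)⟩
  obtain ⟨S⟩ := exists_sys C
  have h2 := D.heavy S Δ
  have h3 := D.dist_fwd S hΔ hT
  have hcard : (EE C).card = 2 * m ^ 2 + (CC C).card := by
    rw [card_EE]
    congr 1
    rw [Fintype.card_sum, Fintype.card_prod, Fintype.card_fin]
    ring
  have h4 := Pool.Agent.W946.Sz.rounds (H := S.H) (Δ := Δ) hε hi r (D.light S Δ) (CC C)
    (fun c _ => S.row_card _ c) (fun e he => (mem_filter.1 he).2.1) hC h3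
  set K' : ℝ := ((D.light S Δ).card : ℝ) - (CC C).card with hK'
  have hΔr : (0 : ℝ) < (Δ : ℝ) + 1 := by positivity
  have h5 : 2 * (m : ℝ) ^ 2 - (3 * (CC C).card + 2 * D.P.card) / (Δ + 1) ≤ K' := by
    rw [hcard] at h2
    have h7 : ((Δ : ℝ) + 1) * (2 * (m : ℝ) ^ 2 + (CC C).card) ≤
        ((Δ : ℝ) + 1) * (D.light S Δ).card + 3 * (CC C).card + 2 * D.P.card := by
      exact_mod_cast h2
    have h8 : 2 * (m : ℝ) ^ 2 - K' ≤ (3 * (CC C).card + 2 * D.P.card) / (Δ + 1) := by
      rw [le_div_iff₀ hΔr, hK']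
      nlinarith
    linarith
  have h6 : K' ≤ 2 * (m : ℝ) ^ 2 := by
    have h7 : (D.light S Δ).card ≤ 2 * m ^ 2 + (CC C).card := by
      rw [← hcard]
      exact card_le_card (filter_subset _ _)
    have h8 : ((D.light S Δ).card : ℝ) ≤ 2 * (m : ℝ) ^ 2 + (CC C).card := by exact_mod_cast h7
    rw [hK']
    linarith
  have h8 := mul_le_mul_of_nonneg_left (show 3 * (2 * (m : ℝ) ^ 2 -
      (3 * (CC C).card + 2 * D.P.card) / (Δ + 1)) - (1 + ε) * (CC C).card ≤
      3 * K' - (1 + ε) * (CC C).card by linarith) (show (0 : ℝ) ≤ 2 ^ r by positivity)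
  linarith

/-! ### counting the gates -/

theorem addCount_eq (C : Circuit F (Vars m)) [DecidablePred fun v : Fin C.nodes =>
    ∃ i j, C.gate v = Gate.add i j] :
    addCount C = (univ.filter fun v : Fin C.nodes => ∃ i j, C.gate v = Gate.add i j).card := by
  unfold addCount
  rw [Nat.card_eq_fintype_card, Fintype.card_subtype]

theorem Dat.card_add_mixed (D : Dat C) :
    (CC C).card + D.Q.card ≤ addCount C + mixedCount C := by
  classical
  rw [addCount_eq]
  have h1 : mixedCount C = (univ.filter fun v : Fin C.nodes =>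
      (∃ i j, C.gate v = Gate.add i j) ∧
      MvPolynomial.homogeneousComponent 1 (C.poly v) ≠ 0 ∧
      MvPolynomial.homogeneousComponent 2 (C.poly v) ≠ 0).card := by
    unfold mixedCount
    rw [Nat.card_eq_fintype_card, Fintype.card_subtype]
  rw [h1, ← card_union_add_card_inter (CC C) D.Q]
  refine Nat.add_le_add (card_le_card fun v hv => ?_) (card_le_card fun v hv => ?_)
  · rw [mem_filter]
    refine ⟨mem_univ _, ?_⟩
    rcases mem_union.1 hv with h | h
    · exact leader_add D.hn (mem_CC.1 h)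
    · exact (D.mem_Q.1 h).2
  · rw [mem_inter] at hv
    rw [mem_filter]
    have h2 := mem_CC.1 hv.1
    have h3 := D.mem_Q.1 hv.2
    refine ⟨mem_univ _, h3.2, fun h => h2.1 ?_, (D.LV_core h3.1).2⟩
    funext x
    simp only [lin]
    rw [← D1_comp_one, h]
    simp [D1]

theorem Dat.card_P_le_nonscalar (D : Dat C) : D.P.card ≤ C.nonscalarCount := by
  classical
  rw [nonscalarCount_eq C]
  exact card_le_card fun v hv => mem_filter.2 ⟨mem_univ _, D.P_nonscalar hv⟩

theorem Dat.card_add_outputs (D : Dat C) (hm : 2 ≤ m) :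
    (CC C).card + m ^ 2 ≤ addCount C := by
  classical
  rw [addCount_eq]
  have hns : ∀ a, ¬ C.IsNonscalar (D.o a) := by
    rintro a ⟨i', j', hg, h1, h2⟩
    have h3 : entry F m a.1 a.2 = (D.s a • C.poly (C.up (D.o a) i')) * C.poly (C.up (D.o a) j') := by
      rw [smul_mul_assoc, ← poly_mul hg]
      exact D.poly_o a
    rcases (entry_irreducible (F := F) hm a.1 a.2).isUnit_or_isUnit h3 with h4 | h4
    · obtain ⟨r, _, hr⟩ := MvPolynomial.isUnit_iff_eq_C_of_isReduced.1 h4
      refine h1 ((D.s a)⁻¹ * r) ?_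
      have h5 := congrArg (fun z => (D.s a)⁻¹ • z) hr
      simp only [smul_smul, inv_mul_cancel₀ (D.s_ne a), one_smul] at h5
      rw [h5, MvPolynomial.smul_eq_C_mul, ← map_mul]
    · obtain ⟨r, _, hr⟩ := MvPolynomial.isUnit_iff_eq_C_of_isReduced.1 h4
      exact h2 r hr
  have hadd : ∀ a, ∃ i j, C.gate (D.o a) = Gate.add i j := by
    intro a
    by_contra h
    exact hns a (core_nonscalar (D.core _) (D.q2_ne a) h)
  have hinj : Function.Injective D.o := by
    rintro ⟨i, j⟩ ⟨i', j'⟩ h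
    have h1 := D.q2_o (i, j)
    have h2 := D.q2_o (i', j')
    rw [← h] at h2
    have h3 : entry F m i j = (D.s (i, j) * (D.s (i', j'))⁻¹) • entry F m i' j' := by
      have h4 : entry F m i' j' = D.s (i', j') • q2 C (D.o (i, j)) := h2
      have h5 : entry F m i j = D.s (i, j) • q2 C (D.o (i, j)) := h1
      rw [h4, smul_smul, mul_assoc, inv_mul_cancel₀ (D.s_ne _), mul_one]
      exact h5
    have h4 := D2_entry_diag (F := F) i j i j ⟨0, by omega⟩
    rw [h3, D2_smul, D2_entry_diag, if_pos rfl] at h4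
    by_contra hne
    rw [if_neg hne, mul_zero] at h4
    exact zero_ne_one h4
  have hlin : ∀ a, lin C (D.o a) = 0 := by
    intro a
    funext x
    have h1 : D1 x (entry F m a.1 a.2) = 0 := D1_entry a.1 a.2 x
    rw [D.poly_o a, MvPolynomial.smul_eq_C_mul, D1_mul, D1_C, MvPolynomial.constantCoeff_C,
      mul_zero, add_zero] at h1
    exact (mul_eq_zero.1 h1).resolve_left (D.s_ne a)
  set O : Finset (Fin C.nodes) := univ.image D.o with hO
  have hOcard : O.card = m ^ 2 := by
    rw [hO, card_image_of_injective _ hinj, card_univ, Fintype.card_prod, Fintype.card_fin, sq]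
  rw [← hOcard, ← card_union_of_disjoint]
  · refine card_le_card fun v hv => ?_
    rw [mem_filter]
    refine ⟨mem_univ _, ?_⟩
    rcases mem_union.1 hv with h | h
    · exact leader_add D.hn (mem_CC.1 h)
    · rw [hO, mem_image] at h
      obtain ⟨a, _, rfl⟩ := h
      exact hadd a
  · rw [Finset.disjoint_left]
    intro v hv hv'
    rw [hO, mem_image] at hv'
    obtain ⟨a, _, rfl⟩ := hv'
    exact (mem_CC.1 hv).1 (hlin a)

theorem exists_dat (hn : NoConstantTerms C) (hC : Computes C) : Nonempty (Dat C) := by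
  obtain ⟨R⟩ := exists_red C
  choose out hout using hC
  exact ⟨{ R with hn := hn, out := fun a => out a.1 a.2, hout := fun a => hout a.1 a.2 }⟩

end Pool.Agent.K9h26.HG
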